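import Pool.Agent.T63.CL.Int
import Pool.Agent.N375.AV.D

/-!
# The `3x+k` maps, all `k` at once: near the values of compositions of additive functions

There is `γ > 1 - H`, `H = 0.94995...`, with the following property. Let `G` have steps bounded below by a
positive constant and growth at most `v ^ e`, for example `G v = v`, `0 < η ≤ 1`, `θ, κ ≥ 0` and
`e (1 + 2 θ - γ η) + κ < 1`. Let `F = f_1 ∘ ⋯ ∘ f_r` be a composition of functions dominated by the largest
prime factor (`PD`), for example additive functions `f` with `f (p ^ j) ≤ C p ^ j` and different values at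
different large primes (the sum of the prime factors), the largest prime factor itself, and Kempner's
function. For all `u ≤ N` but `M N exp (- b (log N) ^ (1 / (r + 1)))`, for ALL odd `k ≥ 1` prime to `3` and
ALL integers `x` with `||x| / k - G(F u)| ≤ F(u) ^ κ` and `k ≤ (|x| / k) ^ θ`, the orbit of `x` under the
`3x+k` map comes down to a value `≤ k (|x| / k) ^ η`.

The values of `F` are taken with very large multiplicities and `F(u)` is in general much smaller than `u`, so
that this does not follow from the number of the exceptional rationals `x / k`. It combines the starting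
library `N375/AV` with this number: the starting library `TH235/UB` bounds the number of the exceptional `x`
for one `k`, uniformly in `k` at the scale `|k|`, and this is summed over `k` (`T63/CL`).
-/

set_option autoImplicit false

namespace Pool.Agent.Results.MP_7f88e4_nt.RationalsNearAdditiveValues

open Pool.Agent.T63.CL
open Pool.Agent.N733.TG (Expanding)
open Pool.Agent.N375.AV (PD comp good)

/-- For ALL odd `k ≥ 1` prime to `3` and EVERY integer `x` with `||x| / k - u| ≤ w` and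
`k ≤ (|x| / k) ^ θ` the orbit of `x` under the `3x+k` map has a term of absolute value
`≤ k (|x| / k) ^ η`. -/
def Falls (θ η u w : ℝ) : Prop :=
  ∀ k x : ℤ, 1 ≤ k → k % 2 = 1 → ¬ (3 : ℤ) ∣ k → (k : ℝ) ≤ (|(x : ℝ)| / k) ^ θ →
    |(|(x : ℝ)|) / k - u| ≤ w →
    ∃ n : ℕ, |(((T k)^[n] x : ℤ) : ℝ)| ≤ k * (|(x : ℝ)| / k) ^ η

/-- **The `3x+k` maps near the values of compositions of additive functions.** There is `γ`,
`1 - H < γ < 1`, `H = 0.94995...`, such that for `G` with steps `≥ a > 0` and growth at most `v ^ e`,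
`0 < η ≤ 1`, `θ, κ ≥ 0` with `e (1 + 2 θ - γ η) + κ < 1` and `F = comp fs`, `fs` a list of functions dominated
by the largest prime factor: for all `u ≤ N` but `M N exp (- b (log N) ^ (1 / (|fs| + 1)))`, for ALL odd
`k ≥ 1` prime to `3` and EVERY integer `x` with `k ≤ (|x| / k) ^ θ` and `||x| / k - G (F u)| ≤ F(u) ^ κ`, the
orbit of `x` under the `3x+k` map has a term of absolute value `≤ k (|x| / k) ^ η` (`Falls`). -/
theorem result :
    ∃ γ : ℝ, 1 - H < γ ∧ γ < 1 ∧
      ∀ (G : ℕ → ℝ) (e : ℝ), Expanding G e → ∀ η θ κ : ℝ, 0 < η → η ≤ 1 → 0 ≤ θ → 0 ≤ κ →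
      e * (1 + 2 * θ - γ * η) + κ < 1 → ∀ fs : List (ℕ → ℕ), (∀ f ∈ fs, PD f) →
      ∃ b M : ℝ, 0 < b ∧ ∀ N : ℕ, 1 ≤ N →
        ({u : ℕ | 1 ≤ u ∧ u ≤ N ∧ ¬ Falls θ η (G (comp fs u)) ((comp fs u : ℝ) ^ κ)}.ncard : ℝ) ≤
          M * N * Real.exp (-(b * Real.log N ^ ((1 : ℝ) / (fs.length + 1)))) := by
  obtain ⟨γ, hγ, hγ1, hp⟩ := rats
  have hH := H_lt
  refine ⟨γ, hγ, hγ1, fun G e hG η θ κ hη hη1 hθ hκ h1 fs hfs => ?_⟩
  have hs : 0 ≤ 1 + 2 * θ - γ * η := by
    have h2 : γ * η ≤ 1 := by nlinarith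
    linarith
  obtain ⟨b, M, hb, hM⟩ := good (AdmQ θ) (GoodQ η) (fun r : ℚ => |(r : ℝ)|) fs hfs hG
    (s := 1 + 2 * θ - γ * η) (κ := κ) hs hκ h1 (ratsε (hp η θ hη hη1 hθ))
  refine ⟨b, M, hb, fun N hN => le_trans ?_ (hM N hN)⟩
  rw [Nat.cast_le]
  refine Set.ncard_le_ncard ?_ ((Set.finite_Icc 1 N).subset fun u hu => ⟨hu.1, hu.2.1⟩)
  rintro u ⟨hu1, hu2, hu3⟩
  refine ⟨hu1, hu2, fun hw => hu3 fun k x hk hk2 hk3 h4 h5 => ?_⟩
  rw [← frac_abs hk] at h4 h5 ⊢
  exact frac_down hk hk2 (hw ((x : ℚ) / (k : ℚ)) ⟨frac_oddDen hk2 hk3, (frac_den_le hk).trans h4⟩ h5)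

end Pool.Agent.Results.MP_7f88e4_nt.RationalsNearAdditiveValues
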