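import Pool.Agent.T63.CL.Int
import Pool.Agent.N790.CM.C

/-!
# The `3x+k` maps, all `k` at once: near all multiples of Carmichael's function of almost all integers

There is `γ > 1 - H`, `H = 0.94995...`, with the following property. Let `G` have steps bounded below by a
positive constant and growth at most `v ^ e`, for example `G v = v`, `0 < η ≤ 1`, `θ, κ ≥ 0`, `B ≥ 1` and
`B (e (1 + 2 θ - γ η) + κ) < 1`. Let `F` be a function which takes each positive value at boundedly many
primes. For all `u ≤ N` but `N / (log N) ^ A`, for ALL common multiples `w ≤ N ^ B` of the numbers `F p`,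
`p` the large primes which divide `u` exactly once (for `F p = p - 1` these include all the multiples
`≤ N ^ B` of Carmichael's function `λ(u)`), for ALL odd `k ≥ 1` prime to `3` and ALL integers `x` with
`||x| / k - G(w)| ≤ w ^ κ` and `k ≤ (|x| / k) ^ θ`, the orbit of `x` under the `3x+k` map comes down to a
value `≤ k (|x| / k) ^ η`.

Some `w` are multiples of `λ(u)` for more than `N ^ (1 - δ)` of the `u ≤ N`, so that this does not follow from
the number of the exceptional rationals `x / k`. It combines the starting library `N790/CM` with this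
number: the starting library `TH235/UB` bounds the number of the exceptional `x` for one `k`, uniformly in
`k` at the scale `|k|`, and this is summed over `k`.
-/

set_option autoImplicit false

namespace Pool.Agent.Results.MP_7f88e4_nt.RationalsNearCommonMultiples

open Pool.Agent.T63.CL
open Pool.Agent.N733.TG (Expanding)
open Pool.Agent.N790.CM (FewTimes Carries OnMultiples keep_good)

/-- For ALL odd `k ≥ 1` prime to `3` and EVERY integer `x` with `||x| / k - u| ≤ w` and
`k ≤ (|x| / k) ^ θ` the orbit of `x` under the `3x+k` map has a term of absolute value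
`≤ k (|x| / k) ^ η`. -/
def Falls (θ η u w : ℝ) : Prop :=
  ∀ k x : ℤ, 1 ≤ k → k % 2 = 1 → ¬ (3 : ℤ) ∣ k → (k : ℝ) ≤ (|(x : ℝ)| / k) ^ θ →
    |(|(x : ℝ)|) / k - u| ≤ w →
    ∃ n : ℕ, |(((T k)^[n] x : ℤ) : ℝ)| ≤ k * (|(x : ℝ)| / k) ^ η

/-- **The `3x+k` maps near all multiples of Carmichael's function of almost all integers.** There is `γ`,
`1 - H < γ < 1`, `H = 0.94995...`, such that for `G` with steps `≥ a > 0` and growth at most `v ^ e`,
`0 < η ≤ 1`, `θ, κ ≥ 0`, `B ≥ 1` with `B (e (1 + 2 θ - γ η) + κ) < 1`: if `F` takes each positive value at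
boundedly many primes then for every `A`, for all `u ≤ N` but `N / (log N) ^ A`, for all common multiples
`w ≤ N ^ B` of the numbers `F p`, `p > exp (√(log N))` a prime which divides `u` exactly once, for ALL odd
`k ≥ 1` prime to `3` and EVERY integer `x` with `k ≤ (|x| / k) ^ θ` and `||x| / k - G w| ≤ w ^ κ`, the orbit
of `x` under the `3x+k` map has a term of absolute value `≤ k (|x| / k) ^ η` (`Falls`). -/
theorem result :
    ∃ γ : ℝ, 1 - H < γ ∧ γ < 1 ∧
      ∀ (G : ℕ → ℝ) (e : ℝ), Expanding G e → ∀ η θ κ B : ℝ, 0 < η → η ≤ 1 → 0 ≤ θ → 0 ≤ κ → 1 ≤ B →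
      B * (e * (1 + 2 * θ - γ * η) + κ) < 1 →
      OnMultiples B (fun w => Falls θ η (G w) ((w : ℝ) ^ κ)) := by
  obtain ⟨γ, hγ, hγ1, hp⟩ := rats
  have hH := H_lt
  refine ⟨γ, hγ, hγ1, fun G e hG η θ κ B hη hη1 hθ hκ hB h1 => ?_⟩
  have hs : 0 ≤ 1 + 2 * θ - γ * η := by
    have h2 : γ * η ≤ 1 := by nlinarith
    linarith
  refine (keep_good (AdmQ θ) (GoodQ η) (fun r : ℚ => |(r : ℝ)|) hG
    (s := 1 + 2 * θ - γ * η) (κ := κ) (B := B) hs hκ hB h1
    (ratsε (hp η θ hη hη1 hθ))).mono fun w _ hw k x hk hk2 hk3 h4 h5 => ?_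
  rw [← frac_abs hk] at h4 h5 ⊢
  exact frac_down hk hk2 (hw ((x : ℚ) / (k : ℚ)) ⟨frac_oddDen hk2 hk3, (frac_den_le hk).trans h4⟩ h5)

end Pool.Agent.Results.MP_7f88e4_nt.RationalsNearCommonMultiples
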