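import Pool.Agent.T63.CL.Int
import Pool.Agent.R482.ST.Ae

/-!
# The `3x+k` maps: short windows around powers, iterates and other sequences, for all `k ≤ D_n` at once

There is `c > 1 - H`, `H = 0.94995...`, with the following property. Let `f_n`, `n = 0, 1, 2, …`, be positive
functions on `(a, ∞)`, `a ≥ 0`, such that `f_n(t) / t` is nondecreasing. For almost every `α > a`, for all
but finitely many `n`, for ALL odd `k ≤ D_n` prime to `3` and ALL integers `x` with
`||x| / k - f_n(α)| ≤ L_n`, the orbit of `x` under the `3x+k` map comes down to a value of absolute value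
`≤ k y_n`, as soon as the sums of `L_n D_n ^ 2 y_n ^ (-c) (1 + log (f_n(t) / f_n(s)))` converge. So for
`L_n = D_n = 1`, `f_n(α) = α ^ n` and `y_n = (n + 1) ^ (3 / c)` this is true for all integers within distance
`1` of `α ^ n`; and for almost every `α > 1` the orbits of ALL rationals with odd denominators `≤ n` prime
to `3` within distance `1` of `α ^ n`, about `n ^ 2 / 6` rationals for each `n`, come down to values
`≤ n ^ (5 / c)` for all large `n`.

Proof. The starting library `TH235/UB` bounds the number of the `x` with `|x| ≤ X` whose `3x+k` orbit avoids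
`[-y, y]` by `A X (|k| / y) ^ c`, with `A` independent of `k`. So at most `A D ^ 2 X y ^ (-c)` rationals
`r = x / k` with `|r| ≤ X` and denominators `≤ D` have an orbit (under the `3x+1` map on the rationals with
odd denominators) which avoids `[-y, y]`. Then the starting library `R482/ST` (a Borel-Cantelli argument in
the scale of the `f_n`).
-/

set_option autoImplicit false

namespace Pool.Agent.Results.MP_7f88e4_nt.RationalsNearPowers

open MeasureTheory Filter Pool.Agent.T63.CL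

/-- the functions `f n` are positive on `(a, ∞)`, `a ≥ 0`, and `f n x / x` is nondecreasing there -/
def Starshaped (a : ℝ) (f : ℕ → ℝ → ℝ) : Prop :=
  0 ≤ a ∧ ∀ n : ℕ, ∀ x y : ℝ, a < x → x ≤ y → 0 < f n x ∧ f n x / x ≤ f n y / y

/-- For ALL odd `k`, `1 ≤ k ≤ D`, prime to `3` and ALL integers `x` with `||x| / k - u| ≤ L` the orbit of
`x` under the `3x+k` map has a term of absolute value `≤ k y`. -/
def WindowDown (D L y u : ℝ) : Prop :=
  ∀ k x : ℤ, 1 ≤ k → k % 2 = 1 → ¬ (3 : ℤ) ∣ k → (k : ℝ) ≤ D → |(|(x : ℝ)|) / k - u| ≤ L →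
    ∃ j : ℕ, |(((T k)^[j] x : ℤ) : ℝ)| ≤ k * y

/-- **Theorem.** There is `c`, `1 - H < c < 1`, `H = 0.94995...`, such that for all `y_n ≥ 1`, `D_n ≥ 1` and
`L_n ≥ 0`: let `f_n` be starshaped functions on `(a, ∞)`, bounded below by a positive constant at each point,
such that for all `t ≥ s > a` the sum of `L_n D_n ^ 2 y_n ^ (-c) (1 + log (f_n(t) / f_n(s)))` converges and
`L_n ≤ f_n(s)` for all large `n`. Then for almost every `α > a` and all but finitely many `n`, for ALL odd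
`k`, `1 ≤ k ≤ D_n`, prime to `3` and EVERY integer `x` with `||x| / k - f_n(α)| ≤ L_n` the orbit of `x`
under the `3x+k` map has a term of absolute value `≤ k y_n`. -/
theorem result :
    ∃ c : ℝ, 1 - H < c ∧ c < 1 ∧ ∀ y D L : ℕ → ℝ, (∀ n, 1 ≤ y n) → (∀ n, 1 ≤ D n) → (∀ n, 0 ≤ L n) →
    ∀ (a : ℝ) (f : ℕ → ℝ → ℝ), Starshaped a f → (∀ s : ℝ, a < s → ∃ b : ℝ, 0 < b ∧ ∀ n, b ≤ f n s) →
      (∀ s : ℝ, a < s → ∀ᶠ n in atTop, L n ≤ f n s) →
      (∀ s t : ℝ, a < s → s ≤ t → Summable fun n =>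
        L n * (D n) ^ 2 * (y n) ^ (-c) * (1 + Real.log (f n t / f n s))) →
      ∃ N : Set ℝ, volume N = 0 ∧ ∀ α : ℝ, a < α → α ∉ N → ∃ n₀ : ℕ, ∀ n : ℕ, n₀ ≤ n →
        WindowDown (D n) (L n) (y n) (f n α) := by
  obtain ⟨c, hc, hc1, A, hA, h⟩ := base
  refine ⟨c, hc, hc1, fun y D L hy hD hL => ?_⟩
  have hnn : ∀ n, 0 ≤ A * (D n) ^ 2 * (y n) ^ (-c) := fun n => by
    have := hy n
    positivity
  have hcount : ∀ n, ∀ X : ℝ, 1 ≤ X →
      {r : ℚ | r ∈ {r : ℚ | OddDen r ∧ (r.den : ℝ) ≤ D n ∧ ¬ DownQ r (y n)} ∧ |(r : ℝ)| ≤ X}.Finite ∧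
      ({r : ℚ | r ∈ {r : ℚ | OddDen r ∧ (r.den : ℝ) ≤ D n ∧ ¬ DownQ r (y n)} ∧
        |(r : ℝ)| ≤ X}.ncard : ℝ) ≤ (A * (D n) ^ 2 * (y n) ^ (-c)) * X := by
    intro n X hX
    have h1 := rat_count hA h (D := D n) (X := X) (y := y n) (hD n) hX (by linarith [hy n])
    have e : {r : ℚ | r ∈ {r : ℚ | OddDen r ∧ (r.den : ℝ) ≤ D n ∧ ¬ DownQ r (y n)} ∧
        |(r : ℝ)| ≤ X} = BadRat (D n) X (y n) := by
      ext r
      simp only [BadRat, Set.mem_ofPred_eq]
      tauto
    rw [e]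
    exact h1
  intro a f hf hb hLf hsum
  obtain ⟨N, hN, hN2⟩ := Pool.Agent.R482.ST.ae_windows
    (fun n => {r : ℚ | OddDen r ∧ (r.den : ℝ) ≤ D n ∧ ¬ DownQ r (y n)})
    (fun r : ℚ => |(r : ℝ)|) hf hb (C := fun n => A * (D n) ^ 2 * (y n) ^ (-c)) hnn hL hLf
    (fun s t hs hst => by
      refine ((hsum s t hs hst).mul_left A).congr fun n => ?_
      ring) hcount
  refine ⟨N, hN, fun α hα hαN => ?_⟩
  obtain ⟨n₀, hn⟩ := hN2 α hα hαN
  refine ⟨n₀, fun n hn1 k x hk hk2 hk3 hkD hw => ?_⟩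
  refine frac_down hk hk2 ?_
  by_contra hcon
  refine absurd (hn n hn1 ((x : ℚ) / (k : ℚ)) ⟨frac_oddDen hk2 hk3, (frac_den_le hk).trans hkD, hcon⟩)
    (not_lt.2 ?_)
  rw [frac_abs hk]
  exact hw

end Pool.Agent.Results.MP_7f88e4_nt.RationalsNearPowers
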