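import Pool.Agent.T63.CL.Int
import Pool.Agent.N760.IT.D

/-!
# The `3x+k` maps, all `k` at once: near the members of almost all orbits of Euler's function

Let `φ_j` be the `j`-th iterate of Euler's function, `φ_0(m) = m`, and let `f` be a positive multiplicative
function of at most polynomial growth such that `f p ≤ M p` for the large primes `p`, with different values
at different large primes; for example the identity, Euler's function or the sum of the divisors. There is
`γ > 1 - H`, `H = 0.94995...`, such that if `G` has steps bounded below by a positive constant and growth at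
most `v ^ e`, for example `G v = v`, `0 < η ≤ 1`, `θ, κ ≥ 0` and `e (1 + 2 θ - γ η) + κ < 1`, then there is
`K(m)` tending to infinity such that for almost all `m`, for all `j ≤ K(m)`, with `v = f(φ_j(m))`: for ALL
odd `k ≥ 1` prime to `3` and ALL integers `x` with `||x| / k - G v| ≤ v ^ κ` and `k ≤ (|x| / k) ^ θ`, the
orbit of `x` under the `3x+k` map comes down to a value `≤ k (|x| / k) ^ η`. The values of `f` are in general
taken with very large multiplicities, and so this does not follow from the number of the exceptional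
rationals `x / k`.

It combines the starting library `N760/IT` with the number of these rationals: the starting library
`TH235/UB` bounds the number of the exceptional `x` for one `k`, uniformly in `k` at the scale `|k|`, and
this is summed over `k`.
-/

set_option autoImplicit false

namespace Pool.Agent.Results.MP_7f88e4_nt.RationalsNearTotientOrbits

open Filter
open Pool.Agent.T63.CL
open Pool.Agent.N733.TG (LM Expanding)
open Pool.Agent.N760.IT (orb orbit_windows')
open Pool.Agent.N826.IT.Orb (AlmostAll)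

/-- **The `3x+k` maps near the orbits of Euler's function.** There is `γ`, `1 - H < γ < 1`,
`H = 0.94995...`, with the following property. Let `f` be multiplicative and positive, of at most polynomial
growth, with `f p ≤ M p` at the large primes, and injective there; let `G` have steps `≥ a > 0` and growth at
most `v ^ e`, `0 < η ≤ 1`, `θ, κ ≥ 0` and `e (1 + 2 θ - γ η) + κ < 1`. Then there is `K(m)` tending to
infinity such that for almost all `m`, for all `j ≤ K(m)`, with `v = f(φ_j(m))` (`orb f j m`), for ALL odd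
`k ≥ 1` prime to `3` and EVERY integer `x` with `k ≤ (|x| / k) ^ θ` and `||x| / k - G v| ≤ v ^ κ`, the orbit
of `x` under the `3x+k` map has a term of absolute value `≤ k (|x| / k) ^ η`. -/
theorem result :
    ∃ γ : ℝ, 1 - H < γ ∧ γ < 1 ∧
      ∀ f : ℕ → ℕ, LM f → ∀ (G : ℕ → ℝ) (e : ℝ), Expanding G e → ∀ η θ κ : ℝ,
      0 < η → η ≤ 1 → 0 ≤ θ → 0 ≤ κ → e * (1 + 2 * θ - γ * η) + κ < 1 →
      ∃ K : ℕ → ℕ, Tendsto K atTop atTop ∧
        AlmostAll (fun m => ∀ j ≤ K m, ∀ k x : ℤ, 1 ≤ k → k % 2 = 1 → ¬ (3 : ℤ) ∣ k →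
          (k : ℝ) ≤ (|(x : ℝ)| / k) ^ θ →
          |(|(x : ℝ)|) / k - G (orb f j m)| ≤ (orb f j m : ℝ) ^ κ →
            ∃ n : ℕ, |(((T k)^[n] x : ℤ) : ℝ)| ≤ k * (|(x : ℝ)| / k) ^ η) := by
  obtain ⟨γ, hγ, hγ1, hp⟩ := rats
  have hH := H_lt
  refine ⟨γ, hγ, hγ1, fun f hf G e hG η θ κ hη hη1 hθ hκ h1 => ?_⟩
  have hs : 0 ≤ 1 + 2 * θ - γ * η := by
    have h2 : γ * η ≤ 1 := by nlinarith
    linarith
  obtain ⟨K, hK, h2⟩ := orbit_windows' {r : ℚ | AdmQ θ r ∧ ¬ GoodQ η r}
    (fun r : ℚ => |(r : ℝ)|) hf hG (s := 1 + 2 * θ - γ * η) (κ := κ) hs hκ h1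
    (hp η θ hη hη1 hθ)
  refine ⟨K, hK, ?_⟩
  refine Pool.Agent.N826.IT.Orb.almostAll_mono h2 fun m h j hj k x hk hk2 hk3 h4 h5 => ?_
  rw [← frac_abs hk] at h4 h5 ⊢
  refine frac_down hk hk2 ?_
  by_contra h7
  exact h j hj ((x : ℚ) / (k : ℚ)) ⟨⟨frac_oddDen hk2 hk3, (frac_den_le hk).trans h4⟩, h7⟩ h5

end Pool.Agent.Results.MP_7f88e4_nt.RationalsNearTotientOrbits
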